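import Pool.Agent.R974.BW.Defs

/-!
Piece SMF of project BW (helper974): from correlations to the second moment.
-/

set_option autoImplicit false

namespace Pool.Agent.R363.BW

open MeasureTheory ProbabilityTheory Filter Topology Set
open Pool.Agent.R967.FB Pool.Agent.R974.BW
open scoped ENNReal NNReal

lemma meas_shift2 : Measurable (fun p : Pth × ℝ => shift p.2.toNNReal p.1) := by
  apply measurable_path
  intro r
  have h1 : Continuous (fun p : Pth × ℝ => p.1 (p.2.toNNReal + r) - p.1 p.2.toNNReal) := by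
    fun_prop
  exact h1.measurable

lemma corr (W : Measure Pth) (hW : IsWiener W) (f : Pth → ℝ≥0∞) (C : ℝ≥0) (hf : Measurable f)
    (hcor : ∀ r : ℝ≥0, 0 < r → r ≤ 1 / 2 →
      ∫⁻ w, f w * f (shift r w) ∂W ≤ C * ENNReal.ofReal ((r : ℝ) ^ (-(3 / 4) : ℝ)))
    (s t : ℝ≥0) (hst : s < t) (h : t ≤ 1 / 2) :
    ∫⁻ w, f (shift s w) * f (shift t w) ∂W ≤
      C * ENNReal.ofReal (|(t : ℝ) - s| ^ (-(3 / 4) : ℝ)) := by
  have h1 : ∀ w, f (shift s w) * f (shift t w) =
      (fun v => f v * f (shift (t - s) v)) (shift s w) := by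
    intro w
    simp only
    rw [shift_shift, add_tsub_cancel_of_le hst.le]
  have hm : Measurable (fun v => f v * f (shift (t - s) v)) :=
    hf.mul (hf.comp (measurable_shift _))
  calc ∫⁻ w, f (shift s w) * f (shift t w) ∂W
      = ∫⁻ w, (fun v => f v * f (shift (t - s) v)) (shift s w) ∂W := by
        apply lintegral_congr; exact h1
    _ = ∫⁻ v, f v * f (shift (t - s) v) ∂(W.map (shift s)) := by
        rw [lintegral_map hm (measurable_shift s)]
    _ = ∫⁻ v, f v * f (shift (t - s) v) ∂W := by rw [map_shift hW]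
    _ ≤ C * ENNReal.ofReal (((t - s : ℝ≥0) : ℝ) ^ (-(3 / 4) : ℝ)) :=
        hcor (t - s) (tsub_pos_of_lt hst) (tsub_le_self.trans h)
    _ = C * ENNReal.ofReal (|(t : ℝ) - s| ^ (-(3 / 4) : ℝ)) := by
        have hlt : (s : ℝ) < t := by exact_mod_cast hst
        rw [NNReal.coe_sub hst.le, abs_of_pos (sub_pos.2 hlt)]

lemma one_side : ∫⁻ x in Ioc (0 : ℝ) (1 / 2), ENNReal.ofReal (x ^ (-(3 / 4) : ℝ)) ≤ 4 := by
  have hint : IntervalIntegrable (fun x : ℝ => x ^ (-(3 / 4) : ℝ)) volume 0 (1 / 2) :=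
    intervalIntegral.intervalIntegrable_rpow' (by norm_num)
  have hI : IntegrableOn (fun x : ℝ => x ^ (-(3 / 4) : ℝ)) (Ioc 0 (1 / 2)) volume :=
    (intervalIntegrable_iff_integrableOn_Ioc_of_le (by norm_num)).1 hint
  rw [← ofReal_integral_eq_lintegral_ofReal hI]
  · rw [← intervalIntegral.integral_of_le (by norm_num : (0 : ℝ) ≤ 1 / 2),
      integral_rpow (Or.inl (by norm_num))]
    have h1 : ((1 / 2 : ℝ) ^ (-(3 / 4) + 1 : ℝ)) ≤ 1 :=
      Real.rpow_le_one (by norm_num) (by norm_num) (by norm_num)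
    have h2 : ((0 : ℝ) ^ (-(3 / 4) + 1 : ℝ)) = 0 := Real.zero_rpow (by norm_num)
    rw [h2]
    have h3 : (((1 / 2 : ℝ) ^ (-(3 / 4) + 1 : ℝ)) - 0) / (-(3 / 4) + 1) ≤ 4 := by
      rw [sub_zero, div_le_iff₀ (by norm_num)]
      linarith
    calc ENNReal.ofReal _ ≤ ENNReal.ofReal 4 := ENNReal.ofReal_le_ofReal h3
      _ = 4 := by simp
  · filter_upwards [ae_restrict_mem measurableSet_Ioc] with x hx
    exact Real.rpow_nonneg hx.1.le _

lemma kern_meas (s : ℝ) : Measurable (fun t : ℝ => ENNReal.ofReal (|t - s| ^ (-(3 / 4) : ℝ))) := by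
  fun_prop

lemma inner_bd (s : ℝ) (hs : s ∈ Icc (0 : ℝ) (1 / 2)) :
    ∫⁻ t in Icc (0 : ℝ) (1 / 2), ENNReal.ofReal (|t - s| ^ (-(3 / 4) : ℝ)) ≤ 8 := by
  have hsub : Icc (0 : ℝ) (1 / 2) ⊆ {s} ∪ (Ico (s - 1 / 2) s ∪ Ioc s (s + 1 / 2)) := by
    intro t ht
    rcases lt_trichotomy t s with h | h | h
    · right; left; exact ⟨by linarith [ht.1, hs.2], h⟩
    · left; exact h
    · right; right; exact ⟨h, by linarith [ht.2, hs.1]⟩
  have hr : ∫⁻ t in Ioc s (s + 1 / 2), ENNReal.ofReal (|t - s| ^ (-(3 / 4) : ℝ)) ≤ 4 := by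
    have h1 : ∫⁻ t in Ioc s (s + 1 / 2), ENNReal.ofReal (|t - s| ^ (-(3 / 4) : ℝ)) =
        ∫⁻ x in Ioc (0 : ℝ) (1 / 2), ENNReal.ofReal (|x| ^ (-(3 / 4) : ℝ)) := by
      have hmp : MeasurePreserving (fun x : ℝ => x + s) volume volume :=
        measurePreserving_add_right volume s
      have := hmp.setLIntegral_comp_preimage (s := Ioc s (s + 1 / 2)) measurableSet_Ioc (kern_meas s)
      rw [← this]
      have hpre : (fun x : ℝ => x + s) ⁻¹' (Ioc s (s + 1 / 2)) = Ioc 0 (1 / 2) := by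
        ext x
        simp only [mem_preimage, mem_Ioc]
        constructor
        · rintro ⟨h1, h2⟩; exact ⟨by linarith, by linarith⟩
        · rintro ⟨h1, h2⟩; exact ⟨by linarith, by linarith⟩
      rw [hpre]
      apply lintegral_congr
      intro x
      rw [add_sub_cancel_right]
    rw [h1]
    calc ∫⁻ x in Ioc (0 : ℝ) (1 / 2), ENNReal.ofReal (|x| ^ (-(3 / 4) : ℝ))
        = ∫⁻ x in Ioc (0 : ℝ) (1 / 2), ENNReal.ofReal (x ^ (-(3 / 4) : ℝ)) := by
          apply setLIntegral_congr_fun measurableSet_Ioc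
          intro x hx
          simp only
          rw [abs_of_pos hx.1]
      _ ≤ 4 := one_side
  have hl : ∫⁻ t in Ico (s - 1 / 2) s, ENNReal.ofReal (|t - s| ^ (-(3 / 4) : ℝ)) ≤ 4 := by
    have h1 : ∫⁻ t in Ico (s - 1 / 2) s, ENNReal.ofReal (|t - s| ^ (-(3 / 4) : ℝ)) =
        ∫⁻ x in Ioc (0 : ℝ) (1 / 2), ENNReal.ofReal (|x| ^ (-(3 / 4) : ℝ)) := by
      have hmp : MeasurePreserving (fun x : ℝ => s - x) volume volume :=
        volume.measurePreserving_sub_left s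
      have := hmp.setLIntegral_comp_preimage (s := Ico (s - 1 / 2) s) measurableSet_Ico (kern_meas s)
      rw [← this]
      have hpre : (fun x : ℝ => s - x) ⁻¹' (Ico (s - 1 / 2) s) = Ioc 0 (1 / 2) := by
        ext x
        simp only [mem_preimage, mem_Ioc, mem_Ico]
        constructor
        · rintro ⟨h1, h2⟩; exact ⟨by linarith, by linarith⟩
        · rintro ⟨h1, h2⟩; exact ⟨by linarith, by linarith⟩
      rw [hpre]
      apply lintegral_congr
      intro x
      rw [sub_sub_cancel_left, abs_neg]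
    rw [h1]
    calc ∫⁻ x in Ioc (0 : ℝ) (1 / 2), ENNReal.ofReal (|x| ^ (-(3 / 4) : ℝ))
        = ∫⁻ x in Ioc (0 : ℝ) (1 / 2), ENNReal.ofReal (x ^ (-(3 / 4) : ℝ)) := by
          apply setLIntegral_congr_fun measurableSet_Ioc
          intro x hx
          simp only
          rw [abs_of_pos hx.1]
      _ ≤ 4 := one_side
  calc ∫⁻ t in Icc (0 : ℝ) (1 / 2), ENNReal.ofReal (|t - s| ^ (-(3 / 4) : ℝ))
      ≤ ∫⁻ t in {s} ∪ (Ico (s - 1 / 2) s ∪ Ioc s (s + 1 / 2)),
          ENNReal.ofReal (|t - s| ^ (-(3 / 4) : ℝ)) := lintegral_mono_set hsub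
    _ ≤ (∫⁻ t in {s}, ENNReal.ofReal (|t - s| ^ (-(3 / 4) : ℝ))) +
        ((∫⁻ t in Ico (s - 1 / 2) s, ENNReal.ofReal (|t - s| ^ (-(3 / 4) : ℝ))) +
        (∫⁻ t in Ioc s (s + 1 / 2), ENNReal.ofReal (|t - s| ^ (-(3 / 4) : ℝ)))) := by
        exact (lintegral_union_le _ _ _).trans (add_le_add le_rfl (lintegral_union_le _ _ _))
    _ ≤ 0 + (4 + 4) := add_le_add (le_of_eq (by simp)) (add_le_add hl hr)
    _ = 8 := by norm_num

theorem t_SMF : S_SMF := by
  intro W hW f C hf hcor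
  have hWp : IsProbabilityMeasure W := hW.isGaussianProcess.isProbabilityMeasure
  set g : Pth → ℝ → ℝ≥0∞ := fun w t => f (shift t.toNNReal w) with hg
  have hG : Measurable (fun p : Pth × ℝ => g p.1 p.2) := hf.comp meas_shift2
  have hg1 : ∀ w, Measurable (g w) := fun w => hG.comp measurable_prodMk_left
  have hsq : ∀ w, (∫⁻ t in Icc (0 : ℝ) (1 / 2), g w t) ^ 2 =
      ∫⁻ s in Icc (0 : ℝ) (1 / 2), ∫⁻ t in Icc (0 : ℝ) (1 / 2), g w s * g w t := by
    intro w
    rw [sq, ← lintegral_mul_const _ (hg1 w)]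
    apply lintegral_congr
    intro s
    rw [lintegral_const_mul _ (hg1 w)]
  have hG3 : Measurable (fun q : (Pth × ℝ) × ℝ => g q.1.1 q.1.2 * g q.1.1 q.2) := by
    have h1 : Measurable (fun q : (Pth × ℝ) × ℝ => g q.1.1 q.1.2) := hG.comp measurable_fst
    have h2 : Measurable (fun q : (Pth × ℝ) × ℝ => g q.1.1 q.2) :=
      hG.comp ((measurable_fst.comp measurable_fst).prodMk measurable_snd)
    exact h1.mul h2
  have key : ∫⁻ w, (∫⁻ t in Icc (0 : ℝ) (1 / 2), g w t) ^ 2 ∂W =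
      ∫⁻ s in Icc (0 : ℝ) (1 / 2), ∫⁻ t in Icc (0 : ℝ) (1 / 2), ∫⁻ w, g w s * g w t ∂W := by
    simp_rw [hsq]
    rw [lintegral_lintegral_swap (hG3.lintegral_prod_right').aemeasurable]
    apply lintegral_congr
    intro s
    have h2 : Measurable (fun q : Pth × ℝ => g q.1 s * g q.1 q.2) := by
      have h3 : Measurable (fun q : Pth × ℝ => g q.1 s) :=
        hG.comp (measurable_fst.prodMk measurable_const)
      exact h3.mul hG
    rw [lintegral_lintegral_swap h2.aemeasurable]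
  rw [show (∫⁻ w, (∫⁻ t in Icc (0 : ℝ) (1 / 2), f (shift t.toNNReal w)) ^ 2 ∂W) =
    ∫⁻ w, (∫⁻ t in Icc (0 : ℝ) (1 / 2), g w t) ^ 2 ∂W from rfl, key]
  have hb : ∀ s ∈ Icc (0 : ℝ) (1 / 2), ∀ t ∈ Icc (0 : ℝ) (1 / 2), t ≠ s →
      ∫⁻ w, g w s * g w t ∂W ≤ C * ENNReal.ofReal (|t - s| ^ (-(3 / 4) : ℝ)) := by
    intro s hs t ht hne
    have es : (s.toNNReal : ℝ) = s := Real.coe_toNNReal s hs.1
    have et : (t.toNNReal : ℝ) = t := Real.coe_toNNReal t ht.1
    rcases lt_or_gt_of_ne hne with h | h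
    · have h1 : t.toNNReal < s.toNNReal := by
        rw [← NNReal.coe_lt_coe, es, et]; exact h
      have h2 : s.toNNReal ≤ 1 / 2 := by
        rw [← NNReal.coe_le_coe, es]; push_cast; exact hs.2
      have := corr W hW f C hf hcor _ _ h1 h2
      rw [es, et, abs_sub_comm] at this
      refine le_trans (le_of_eq ?_) this
      apply lintegral_congr
      intro w
      exact mul_comm _ _
    · have h1 : s.toNNReal < t.toNNReal := by
        rw [← NNReal.coe_lt_coe, es, et]; exact h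
      have h2 : t.toNNReal ≤ 1 / 2 := by
        rw [← NNReal.coe_le_coe, et]; push_cast; exact ht.2
      have := corr W hW f C hf hcor _ _ h1 h2
      rw [es, et] at this
      exact this
  have hin : ∀ s ∈ Icc (0 : ℝ) (1 / 2),
      ∫⁻ t in Icc (0 : ℝ) (1 / 2), ∫⁻ w, g w s * g w t ∂W ≤ C * 8 := by
    intro s hs
    calc ∫⁻ t in Icc (0 : ℝ) (1 / 2), ∫⁻ w, g w s * g w t ∂W
        ≤ ∫⁻ t in Icc (0 : ℝ) (1 / 2), C * ENNReal.ofReal (|t - s| ^ (-(3 / 4) : ℝ)) := by
          apply lintegral_mono_ae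
          have hne : ∀ᵐ t ∂(volume.restrict (Icc (0 : ℝ) (1 / 2))), t ≠ s :=
            ae_restrict_of_ae (by
              rw [ae_iff]
              simp)
          filter_upwards [ae_restrict_mem measurableSet_Icc, hne] with t ht hts
          exact hb s hs t ht hts
      _ = C * ∫⁻ t in Icc (0 : ℝ) (1 / 2), ENNReal.ofReal (|t - s| ^ (-(3 / 4) : ℝ)) :=
          lintegral_const_mul _ (kern_meas s)
      _ ≤ C * 8 := by gcongr; exact inner_bd s hs
  calc ∫⁻ s in Icc (0 : ℝ) (1 / 2), ∫⁻ t in Icc (0 : ℝ) (1 / 2), ∫⁻ w, g w s * g w t ∂W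
      ≤ ∫⁻ s in Icc (0 : ℝ) (1 / 2), (C * 8 : ℝ≥0∞) := by
        apply lintegral_mono_ae
        filter_upwards [ae_restrict_mem measurableSet_Icc] with s hs
        exact hin s hs
    _ = C * 8 * volume (Icc (0 : ℝ) (1 / 2)) := by rw [setLIntegral_const]
    _ ≤ C * 8 * 1 := by
        gcongr
        rw [Real.volume_Icc]
        simp only [sub_zero]
        rw [← ENNReal.ofReal_one]
        exact ENNReal.ofReal_le_ofReal (by norm_num)
    _ = 8 * C := by rw [mul_one, mul_comm]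

end Pool.Agent.R363.BW
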