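import Mathlib

/-!
# Functions of degree three along ultrafilters

Let `E` be a finite-dimensional Euclidean space, `A j` finitely many linear functionals,
`C = {D | A j D ≤ 0 for all j}` and `F` a polynomial function of degree at most three.  Suppose that
`x` is a family of points with `A j x → -∞` for all `j` and `F x → -∞` along an ultrafilter.  Then one
of the following three conditions holds for some `D ∈ C` (`T` is the polar form of the cubic
part, `B` the one of the quadratic part): `T D D D < 0`; `T D D = 0` and `B D D < 0`; `T D D = 0`,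
`B D D = 0` and `F (x + t D) = F x + t * s` with `s < 0` for some `x` of the family.
-/

set_option autoImplicit false

open Filter Topology Set

namespace Pool.Agent.R363.CubicCore

/-- A polynomial function of degree at most three, given by the polar forms of its homogeneous
parts. -/
structure CubicFn (E : Type*) [NormedAddCommGroup E] [InnerProductSpace ℝ E] where
  T : E → E → E → ℝ
  B : E → E → ℝ
  L : E → ℝ
  c : ℝ
  Tadd : ∀ a b x y, T (a + b) x y = T a x y + T b x y
  Tsmul : ∀ (r : ℝ) a x y, T (r • a) x y = r * T a x y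
  Tsymm₁ : ∀ a b c, T a b c = T b a c
  Tsymm₂ : ∀ a b c, T a b c = T a c b
  Tcont : Continuous fun p : E × E × E => T p.1 p.2.1 p.2.2
  Badd : ∀ a b x, B (a + b) x = B a x + B b x
  Bsmul : ∀ (r : ℝ) a x, B (r • a) x = r * B a x
  Bsymm : ∀ a b, B a b = B b a
  Bcont : Continuous fun p : E × E => B p.1 p.2
  Ladd : ∀ a b, L (a + b) = L a + L b
  Lsmul : ∀ (r : ℝ) a, L (r • a) = r * L a
  Lcont : Continuous L

namespace CubicFn

variable {E : Type*} [NormedAddCommGroup E] [InnerProductSpace ℝ E] (F : CubicFn E)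

/-- the value of the function -/
def val (x : E) : ℝ := F.T x x x + F.B x x + F.L x + F.c

/-- the linear coefficient of `t ↦ val (x + t • D)` -/
def slope (D x : E) : ℝ := 3 * F.T D x x + 2 * F.B D x + F.L D

theorem Tadd₂ (a b x y : E) : F.T x (a + b) y = F.T x a y + F.T x b y := by
  rw [F.Tsymm₁, F.Tadd, F.Tsymm₁ a, F.Tsymm₁ b]

theorem Tadd₃ (a b x y : E) : F.T x y (a + b) = F.T x y a + F.T x y b := by
  rw [F.Tsymm₂, F.Tadd₂, F.Tsymm₂ x a, F.Tsymm₂ x b]

theorem Tsmul₂ (r : ℝ) (a x y : E) : F.T x (r • a) y = r * F.T x a y := by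
  rw [F.Tsymm₁, F.Tsmul, F.Tsymm₁ a]

theorem Tsmul₃ (r : ℝ) (a x y : E) : F.T x y (r • a) = r * F.T x y a := by
  rw [F.Tsymm₂, F.Tsmul₂, F.Tsymm₂ x a]

theorem Badd₂ (a b x : E) : F.B x (a + b) = F.B x a + F.B x b := by
  rw [F.Bsymm, F.Badd, F.Bsymm a, F.Bsymm b]

theorem Bsmul₂ (r : ℝ) (a x : E) : F.B x (r • a) = r * F.B x a := by
  rw [F.Bsymm, F.Bsmul, F.Bsymm a]

theorem val_add_smul (t : ℝ) (D w : E) : F.val (w + t • D) =
    t * (t * (t * F.T D D D + (3 * F.T D D w + F.B D D)) + F.slope D w) + F.val w := by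
  simp only [val, slope, F.Tadd, F.Tadd₂, F.Tadd₃, F.Tsmul, F.Tsmul₂, F.Tsmul₃, F.Badd, F.Badd₂,
    F.Bsmul, F.Bsmul₂, F.Ladd, F.Lsmul]
  have h1 : F.T w w D = F.T D w w := by rw [F.Tsymm₂, F.Tsymm₁]
  have h2 : F.T w D w = F.T D w w := F.Tsymm₁ _ _ _
  have h3 : F.T w D D = F.T D D w := by rw [F.Tsymm₁, F.Tsymm₂]
  have h4 : F.T D w D = F.T D D w := F.Tsymm₂ _ _ _
  have h5 : F.B w D = F.B D w := F.Bsymm _ _
  rw [h1, h2, h3, h4, h5]
  ring

/-- if `D` is isotropic, then the function is affine along `D` -/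
theorem val_add_of_iso {D : E} (hT : ∀ v, F.T D D v = 0) (hB : F.B D D = 0) (w : E) :
    F.val (w + D) = F.val w + F.slope D w := by
  have h := F.val_add_smul 1 D w
  rw [one_smul, hT, hT, hB] at h
  rw [h]; ring

theorem slope_neg (D x : E) : F.slope (-D) x = - F.slope D x := by
  have h : -D = (-1 : ℝ) • D := by simp
  simp only [slope, h, F.Tsmul, F.Bsmul, F.Lsmul]
  ring

theorem T_neg_neg (D v : E) : F.T (-D) (-D) v = F.T D D v := by
  have h : -D = (-1 : ℝ) • D := by simp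
  rw [h, F.Tsmul, F.Tsmul₂]; ring

theorem B_neg_neg (D : E) : F.B (-D) (-D) = F.B D D := by
  have h : -D = (-1 : ℝ) • D := by simp
  rw [h, F.Bsmul, F.Bsmul₂]; ring

theorem slope_add_of_iso {s s' x : E} (hT : ∀ v, F.T s s' v = 0) (hB : F.B s s' = 0) :
    F.slope s (x + s') = F.slope s x := by
  simp only [slope, F.Tadd₂, F.Tadd₃, F.Badd₂, hT, hB]
  have h1 : F.T s x s' = 0 := by rw [F.Tsymm₂, hT]
  rw [h1]; ring

theorem val_continuous : Continuous F.val := by
  have h1 : Continuous fun x : E => F.T x x x :=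
    F.Tcont.comp (continuous_id.prodMk (continuous_id.prodMk continuous_id))
  have h2 : Continuous fun x : E => F.B x x :=
    F.Bcont.comp (continuous_id.prodMk continuous_id)
  exact ((h1.add h2).add F.Lcont).add continuous_const

theorem slope_continuous (D : E) : Continuous (F.slope D) := by
  have h1 : Continuous fun x : E => F.T D x x :=
    F.Tcont.comp (continuous_const.prodMk (continuous_id.prodMk continuous_id))
  have h2 : Continuous fun x : E => F.B D x :=
    F.Bcont.comp (continuous_const.prodMk continuous_id)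
  exact ((continuous_const.mul h1).add (continuous_const.mul h2)).add continuous_const

end CubicFn

section

variable {E : Type*} [NormedAddCommGroup E] [InnerProductSpace ℝ E]

/-- The limit lemma: if `z / ν → D`, where the point `z` is deep inside of the cone, and the values
of the function are bounded above, then `T D D = 0` and `B D D ≤ 0`. -/
theorem limit_lemma {α ι : Type*} [Finite ι] {l : Filter α} [l.NeBot] (A : ι → E →L[ℝ] ℝ)
    (F : CubicFn E) (H1 : ∀ D, (∀ j, A j D ≤ 0) → 0 ≤ F.T D D D) {z : α → E} {ν : α → ℝ}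
    (hν : Tendsto ν l atTop) {D : E} (hz : Tendsto (fun k => (ν k)⁻¹ • z k) l (𝓝 D))
    (hA : ∀ j, Tendsto (fun k => A j (z k)) l atBot) {M : ℝ} (hM : ∀ᶠ k in l, F.val (z k) ≤ M) :
    (∀ v, F.T D D v = 0) ∧ F.B D D ≤ 0 := by
  have hinv : Tendsto (fun k => (ν k)⁻¹) l (𝓝 0) := tendsto_inv_atTop_zero.comp hν
  have key : ∀ v : E, 3 * F.T D D v + F.B D D ≤ 0 := by
    intro v
    have hlim : Tendsto (fun k => 3 * F.T ((ν k)⁻¹ • z k) ((ν k)⁻¹ • z k) v +
        F.B ((ν k)⁻¹ • z k) ((ν k)⁻¹ • z k) +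
        (ν k)⁻¹ * (-3 * F.T ((ν k)⁻¹ • z k) v v + F.L ((ν k)⁻¹ • z k)) +
        (ν k)⁻¹ * ((ν k)⁻¹ * (F.T v v v + F.c - M))) l
        (𝓝 (3 * F.T D D v + F.B D D + 0 * (-3 * F.T D v v + F.L D) +
          0 * (0 * (F.T v v v + F.c - M)))) := by
      have t1 : Tendsto (fun k => F.T ((ν k)⁻¹ • z k) ((ν k)⁻¹ • z k) v) l (𝓝 (F.T D D v)) :=
        (F.Tcont.tendsto (D, D, v)).comp (hz.prodMk_nhds (hz.prodMk_nhds tendsto_const_nhds))
      have t2 : Tendsto (fun k => F.B ((ν k)⁻¹ • z k) ((ν k)⁻¹ • z k)) l (𝓝 (F.B D D)) :=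
        (F.Bcont.tendsto (D, D)).comp (hz.prodMk_nhds hz)
      have t3 : Tendsto (fun k => F.T ((ν k)⁻¹ • z k) v v) l (𝓝 (F.T D v v)) :=
        (F.Tcont.tendsto (D, v, v)).comp
          (hz.prodMk_nhds (tendsto_const_nhds.prodMk_nhds tendsto_const_nhds))
      have t4 : Tendsto (fun k => F.L ((ν k)⁻¹ • z k)) l (𝓝 (F.L D)) :=
        (F.Lcont.tendsto D).comp hz
      exact ((((t1.const_mul 3).add t2).add (hinv.mul ((t3.const_mul (-3)).add t4))).add
        (hinv.mul (hinv.mul tendsto_const_nhds)))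
    have hev : ∀ᶠ k in l, 3 * F.T ((ν k)⁻¹ • z k) ((ν k)⁻¹ • z k) v +
        F.B ((ν k)⁻¹ • z k) ((ν k)⁻¹ • z k) +
        (ν k)⁻¹ * (-3 * F.T ((ν k)⁻¹ • z k) v v + F.L ((ν k)⁻¹ • z k)) +
        (ν k)⁻¹ * ((ν k)⁻¹ * (F.T v v v + F.c - M)) ≤ 0 := by
      have hcone : ∀ᶠ k in l, ∀ j, A j (z k - v) ≤ 0 := by
        rw [Filter.eventually_all]
        intro j
        filter_upwards [(hA j).eventually_le_atBot (A j v)] with k hk
        rw [map_sub]; linarith
      filter_upwards [hcone, hM, hν.eventually_gt_atTop 0] with k h1 h2 h3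
      have h4 := H1 _ h1
      have h5 : F.T (z k - v) (z k - v) (z k - v) = F.T (z k) (z k) (z k)
          - 3 * F.T (z k) (z k) v + 3 * F.T (z k) v v - F.T v v v := by
        have h6 : z k - v = z k + (-1 : ℝ) • v := by simp [sub_eq_add_neg]
        have e1 : F.T v (z k) (z k) = F.T (z k) (z k) v := by rw [F.Tsymm₁, F.Tsymm₂]
        have e2 : F.T (z k) v (z k) = F.T (z k) (z k) v := F.Tsymm₂ _ _ _
        have e3 : F.T v v (z k) = F.T (z k) v v := by rw [F.Tsymm₂, F.Tsymm₁]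
        have e4 : F.T v (z k) v = F.T (z k) v v := F.Tsymm₁ _ _ _
        rw [h6]
        simp only [F.Tadd, F.Tadd₂, F.Tadd₃, F.Tsmul, F.Tsmul₂, F.Tsmul₃]
        rw [e1, e2, e3, e4]
        ring
      rw [h5] at h4
      simp only [CubicFn.val] at h2
      have h7 : 3 * F.T (z k) (z k) v - 3 * F.T (z k) v v + F.T v v v + F.B (z k) (z k)
          + F.L (z k) + F.c - M ≤ 0 := by linarith
      simp only [F.Tsmul, F.Tsmul₂, F.Bsmul, F.Bsmul₂, F.Lsmul]
      have h8 : 0 < (ν k)⁻¹ := inv_pos.2 h3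
      have h9 : 3 * ((ν k)⁻¹ * ((ν k)⁻¹ * F.T (z k) (z k) v)) +
          (ν k)⁻¹ * ((ν k)⁻¹ * F.B (z k) (z k)) +
          (ν k)⁻¹ * (-3 * ((ν k)⁻¹ * F.T (z k) v v) + (ν k)⁻¹ * F.L (z k)) +
          (ν k)⁻¹ * ((ν k)⁻¹ * (F.T v v v + F.c - M)) =
          ((ν k)⁻¹ * (ν k)⁻¹) * (3 * F.T (z k) (z k) v - 3 * F.T (z k) v v + F.T v v v
            + F.B (z k) (z k) + F.L (z k) + F.c - M) := by ring
      rw [h9]
      exact mul_nonpos_of_nonneg_of_nonpos (mul_pos h8 h8).le h7
    have h10 := le_of_tendsto hlim hev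
    linarith
  have hT : ∀ v, F.T D D v = 0 := by
    intro v
    have h1 : ∀ t : ℝ, 3 * t * F.T D D v + F.B D D ≤ 0 := by
      intro t
      have h2 := key (t • v)
      rw [F.Tsmul₃] at h2
      linarith
    by_contra hne
    have h3 := h1 ((-F.B D D + 1) / (3 * F.T D D v))
    have h4 : 3 * ((-F.B D D + 1) / (3 * F.T D D v)) * F.T D D v = -F.B D D + 1 := by
      field_simp
    rw [h4] at h3
    linarith
  refine ⟨hT, ?_⟩
  have h5 := key 0
  rw [hT] at h5
  linarith

end

end Pool.Agent.R363.CubicCore
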