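import Pool.Agent.R363.CubicCore

/-!
# The core theorem on cubic functions along an ultrafilter
-/

set_option autoImplicit false

open Filter Topology Set

namespace Pool.Agent.R363.CubicCore

variable {E : Type*} [NormedAddCommGroup E] [InnerProductSpace ℝ E] [FiniteDimensional ℝ E]

/-- the induction on the isotropic subspace `S` -/
theorem core_aux {α ι : Type*} [Finite ι] (𝒰 : Ultrafilter α) (A : ι → E →L[ℝ] ℝ) (F : CubicFn E)
    (x : α → E) (hA : ∀ j, Tendsto (fun k => A j (x k)) 𝒰 atBot)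
    (hf : Tendsto (fun k => F.val (x k)) 𝒰 atBot)
    (H1 : ∀ D, (∀ j, A j D ≤ 0) → 0 ≤ F.T D D D)
    (H2 : ∀ D, (∀ j, A j D ≤ 0) → (∀ v, F.T D D v = 0) → 0 ≤ F.B D D)
    (H3 : ∀ D, (∀ j, A j D ≤ 0) → (∀ v, F.T D D v = 0) → F.B D D = 0 → ∀ k, 0 ≤ F.slope D (x k))
    (S : Submodule ℝ E) :
    ∀ w y : α → E, (∀ k, w k ∈ S) → (∀ k, y k ∈ Sᗮ) → (∀ k, x k = w k + y k) →
      (∀ s ∈ S, ∀ s' ∈ S, ∀ v, F.T s s' v = 0) → (∀ s ∈ S, ∀ s' ∈ S, F.B s s' = 0) →
      (∀ j, (∀ s ∈ S, A j s = 0) ∨ ∀ M : ℝ, ∀ᶠ k in (𝒰 : Filter α), M * (1 + ‖y k‖) ≤ -A j (w k)) →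
      False := by
  induction S using WellFoundedGT.induction with
  | ind S ih =>
  intro w y hw hy hx hT hB hI
  -- the vectors `w k` are eventually in the cone, even after a small change
  have hcone : ∀ (s : E), s ∈ S → ∀ᶠ k in (𝒰 : Filter α), ∀ j, A j (w k - ‖y k‖ • s) ≤ 0 := by
    intro s hs
    rw [Filter.eventually_all]
    intro j
    rcases hI j with h | h
    · filter_upwards with k
      rw [map_sub, map_smul, h _ (hw k), h _ hs]; simp
    · filter_upwards [h (|A j s|)] with k hk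
      rw [map_sub, map_smul, smul_eq_mul]
      have h1 : -(‖y k‖ * |A j s|) ≤ ‖y k‖ * A j s := by
        rw [← mul_neg]
        exact mul_le_mul_of_nonneg_left (neg_abs_le _) (norm_nonneg _)
      have h2 : 0 ≤ |A j s| := abs_nonneg _
      nlinarith
  have hval : ∀ s ∈ S, ∀ᶠ k in (𝒰 : Filter α), F.val (y k + ‖y k‖ • s) ≤ F.val (x k) := by
    intro s hs
    filter_upwards [hcone s hs] with k hk
    have hmem : w k - ‖y k‖ • s ∈ S := S.sub_mem (hw k) (S.smul_mem _ hs)
    have h1 := H3 _ hk (hT _ hmem _ hmem) (hB _ hmem _ hmem) k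
    have h2 : y k + ‖y k‖ • s = x k + -(w k - ‖y k‖ • s) := by rw [hx k]; abel
    rw [h2, F.val_add_of_iso (by intro v; rw [F.T_neg_neg]; exact hT _ hmem _ hmem v)
      (by rw [F.B_neg_neg]; exact hB _ hmem _ hmem), F.slope_neg]
    linarith
  rcases 𝒰.em (fun k => False) with h | _
  · exact h.exists.elim fun _ h => h
  by_cases hbd : ∃ R : ℝ, ∀ᶠ k in (𝒰 : Filter α), ‖y k‖ ≤ R
  · -- the remainders are bounded
    obtain ⟨R, hR⟩ := hbd
    obtain ⟨m, hm⟩ : ∃ m : ℝ, ∀ v ∈ Metric.closedBall (0 : E) R, m ≤ F.val v := by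
      have hc : IsCompact (Metric.closedBall (0 : E) R) := isCompact_closedBall _ _
      obtain ⟨m, hm⟩ := hc.bddBelow_image F.val_continuous.continuousOn
      exact ⟨m, fun v hv => hm ⟨v, hv, rfl⟩⟩
    have h1 := hf.eventually_lt_atBot m
    obtain ⟨k, h2, h3, h4⟩ := (h1.and (hR.and (hval 0 S.zero_mem))).exists
    have h5 := hm (y k) (by rw [mem_closedBall_zero_iff]; exact h3)
    rw [smul_zero, add_zero] at h4
    linarith
  · -- the remainders tend to infinity
    have hν : Tendsto (fun k => ‖y k‖) 𝒰 atTop := by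
      rw [tendsto_atTop]
      intro R
      rcases 𝒰.em (fun k => ‖y k‖ ≤ R) with h | h
      · exact absurd ⟨R, h⟩ hbd
      · filter_upwards [h] with k hk
        exact (not_le.1 hk).le
    have hpos : ∀ᶠ k in (𝒰 : Filter α), 0 < ‖y k‖ := hν.eventually_gt_atTop 0
    -- the limit direction
    obtain ⟨e, he1, he2⟩ : ∃ e ∈ Metric.closedBall (0 : E) 1,
        Tendsto (fun k => (‖y k‖)⁻¹ • y k) 𝒰 (𝓝 e) := by
      have hc : IsCompact (Metric.closedBall (0 : E) 1) := isCompact_closedBall _ _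
      have h1 : (𝒰.map (fun k => (‖y k‖)⁻¹ • y k) : Filter E) ≤ 𝓟 (Metric.closedBall (0 : E) 1) := by
        rw [le_principal_iff]
        show ∀ᶠ k in (𝒰 : Filter α), _ ∈ Metric.closedBall (0 : E) 1
        filter_upwards [hpos] with k hk
        rw [mem_closedBall_zero_iff, norm_smul, norm_inv, norm_norm, inv_mul_cancel₀ hk.ne']
      obtain ⟨e, h2, h3⟩ := hc.ultrafilter_le_nhds _ h1
      exact ⟨e, h2, h3⟩
    have hen : ‖e‖ = 1 := by
      have h1 : Tendsto (fun k => ‖(‖y k‖)⁻¹ • y k‖) 𝒰 (𝓝 ‖e‖) := he2.norm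
      have h2 : Tendsto (fun k => ‖(‖y k‖)⁻¹ • y k‖) 𝒰 (𝓝 1) := by
        refine tendsto_const_nhds.congr' ?_
        filter_upwards [hpos] with k hk
        rw [norm_smul, norm_inv, norm_norm, inv_mul_cancel₀ hk.ne']
      exact tendsto_nhds_unique h1 h2
    have heS : e ∈ Sᗮ := by
      have hcl : IsClosed (Sᗮ : Set E) := Submodule.closed_of_finiteDimensional _
      exact hcl.mem_of_tendsto he2 (Eventually.of_forall fun k => Sᗮ.smul_mem _ (hy k))
    -- the functionals vanishing on `S` are nonpositive on `e`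
    have hAe : ∀ j, (∀ s ∈ S, A j s = 0) → A j e ≤ 0 := by
      intro j hj
      have h1 : Tendsto (fun k => A j ((‖y k‖)⁻¹ • y k)) 𝒰 (𝓝 (A j e)) :=
        ((A j).continuous.tendsto e).comp he2
      refine le_of_tendsto h1 ?_
      filter_upwards [(hA j).eventually_le_atBot 0, hpos] with k h2 h3
      rw [hx k, map_add, hj _ (hw k), zero_add] at h2
      rw [map_smul, smul_eq_mul]
      exact mul_nonpos_of_nonneg_of_nonpos (inv_pos.2 h3).le h2
    -- the application of the limit lemma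
    have hlimit : ∀ s ∈ S, (∀ j, (∀ s ∈ S, A j s = 0) ∨ A j (e + s) < 0) →
        (∀ v, F.T (e + s) (e + s) v = 0) ∧ F.B (e + s) (e + s) = 0 := by
      intro s hs hU
      have hz : Tendsto (fun k => (‖y k‖)⁻¹ • (y k + ‖y k‖ • s)) 𝒰 (𝓝 (e + s)) := by
        refine (he2.add (tendsto_const_nhds (x := s))).congr' ?_
        filter_upwards [hpos] with k hk
        rw [smul_add, smul_smul, inv_mul_cancel₀ hk.ne', one_smul]
      have hAz : ∀ j, Tendsto (fun k => A j (y k + ‖y k‖ • s)) 𝒰 atBot := by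
        intro j
        rcases hU j with h | h
        · refine (hA j).congr' ?_
          filter_upwards with k
          rw [hx k, map_add, map_add, map_smul, h _ (hw k), h _ hs]; simp
        · have h1 : Tendsto (fun k => A j ((‖y k‖)⁻¹ • (y k + ‖y k‖ • s))) 𝒰 (𝓝 (A j (e + s))) :=
            ((A j).continuous.tendsto _).comp hz
          refine (hν.atTop_mul_neg h h1).congr' ?_
          filter_upwards [hpos] with k hk
          rw [← smul_eq_mul, ← map_smul, smul_smul, mul_inv_cancel₀ hk.ne', one_smul]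
      have hDcone : ∀ j, A j (e + s) ≤ 0 := by
        intro j
        rcases hU j with h | h
        · rw [map_add, h _ hs, add_zero]; exact hAe j h
        · exact h.le
      have hbdd : ∀ᶠ k in (𝒰 : Filter α), F.val (y k + ‖y k‖ • s) ≤ 0 := by
        filter_upwards [hval s hs, hf.eventually_le_atBot 0] with k h1 h2
        exact h1.trans h2
      obtain ⟨h1, h2⟩ := limit_lemma A F H1 hν hz hAz hbdd
      exact ⟨h1, le_antisymm h2 (H2 _ hDcone h1)⟩
    -- a vector of `S` inside of the cone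
    obtain ⟨s₀, hs₀, hs₀'⟩ : ∃ s₀ ∈ S, ∀ j, (∀ s ∈ S, A j s = 0) ∨ A j s₀ < 0 := by
      have h1 : ∀ᶠ k in (𝒰 : Filter α), ∀ j, (∀ s ∈ S, A j s = 0) ∨ A j (w k) < 0 := by
        rw [Filter.eventually_all]
        intro j
        rcases hI j with h | h
        · exact Eventually.of_forall fun _ => Or.inl h
        · filter_upwards [h 1] with k hk
          right
          have := norm_nonneg (y k)
          linarith
      obtain ⟨k, hk⟩ := h1.exists
      exact ⟨w k, hw k, hk⟩
    have hlarge : ∀ s ∈ S, ∀ᶠ K : ℝ in atTop,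
        ∀ j, (∀ s ∈ S, A j s = 0) ∨ A j (e + (s + K • s₀)) < 0 := by
      intro s hs
      rw [Filter.eventually_all]
      intro j
      rcases hs₀' j with h | h
      · exact Eventually.of_forall fun _ => Or.inl h
      · have h1 : Tendsto (fun K : ℝ => K * A j s₀ + A j (e + s)) atTop atBot :=
          tendsto_atBot_add_const_right _ _ (tendsto_id.atTop_mul_const_of_neg h)
        filter_upwards [h1.eventually_lt_atBot 0] with K hK
        right
        rw [← add_assoc, map_add, map_smul, smul_eq_mul]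
        linarith
    have hexp : ∀ s ∈ S, (∀ v, F.T (e + s) (e + s) v = 2 * F.T e s v + F.T e e v) ∧
        F.B (e + s) (e + s) = 2 * F.B e s + F.B e e := by
      intro s hs
      refine ⟨fun v => ?_, ?_⟩
      · rw [F.Tadd, F.Tadd₂, F.Tadd₂, hT s hs s hs, F.Tsymm₁ s e]; ring
      · rw [F.Badd, F.Badd₂, F.Badd₂, hB s hs s hs, F.Bsymm s e]; ring
    have hes : ∀ s ∈ S, (∀ v, F.T e s v = 0) ∧ F.B e s = 0 := by
      intro s hs
      obtain ⟨K, h1, h2⟩ := ((hlarge s hs).and (hlarge 0 S.zero_mem)).exists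
      have hm1 : s + K • s₀ ∈ S := S.add_mem hs (S.smul_mem _ hs₀)
      have hm2 : (0 : E) + K • s₀ ∈ S := S.add_mem S.zero_mem (S.smul_mem _ hs₀)
      obtain ⟨h3, h4⟩ := hlimit _ hm1 h1
      obtain ⟨h5, h6⟩ := hlimit _ hm2 h2
      refine ⟨fun v => ?_, ?_⟩
      · have h7 := h3 v
        have h8 := h5 v
        rw [(hexp _ hm1).1, F.Tadd₂] at h7
        rw [(hexp _ hm2).1, zero_add] at h8
        linarith
      · rw [(hexp _ hm1).2, F.Badd₂] at h4
        rw [(hexp _ hm2).2, zero_add] at h6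
        linarith
    have hee : (∀ v, F.T e e v = 0) ∧ F.B e e = 0 := by
      obtain ⟨K, h2⟩ := (hlarge 0 S.zero_mem).exists
      have hm2 : (0 : E) + K • s₀ ∈ S := S.add_mem S.zero_mem (S.smul_mem _ hs₀)
      obtain ⟨h5, h6⟩ := hlimit _ hm2 h2
      refine ⟨fun v => ?_, ?_⟩
      · have h8 := h5 v
        rw [(hexp _ hm2).1, (hes _ hm2).1 v] at h8
        linarith
      · rw [(hexp _ hm2).2, (hes _ hm2).2] at h6
        linarith
    -- the larger subspace
    have hene : e ≠ 0 := by
      intro h0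
      rw [h0, norm_zero] at hen
      exact zero_ne_one hen
    have heS' : e ∉ S := by
      intro h0
      have h1 := Submodule.inner_right_of_mem_orthogonal h0 heS
      rw [inner_self_eq_zero] at h1
      exact hene h1
    have hlt : S < S ⊔ Submodule.span ℝ {e} := by
      refine lt_of_le_of_ne le_sup_left fun h0 => heS' ?_
      rw [h0]
      exact Submodule.mem_sup_right (Submodule.mem_span_singleton_self e)
    have hmem : ∀ u ∈ S ⊔ Submodule.span ℝ {e}, ∃ s ∈ S, ∃ a : ℝ, u = s + a • e := by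
      intro u hu
      obtain ⟨s, hs, t, ht, rfl⟩ := Submodule.mem_sup.1 hu
      obtain ⟨a, rfl⟩ := Submodule.mem_span_singleton.1 ht
      exact ⟨s, hs, a, rfl⟩
    have hineq : ∀ k, |inner ℝ e (y k)| ≤ ‖y k‖ := by
      intro k
      have h1 := abs_real_inner_le_norm e (y k)
      rwa [hen, one_mul] at h1
    have hpyth : ∀ k, ‖y k - (inner ℝ e (y k)) • e‖ ≤ ‖y k‖ := by
      intro k
      have h1 : ‖y k - (inner ℝ e (y k)) • e‖ ^ 2 = ‖y k‖ ^ 2 - (inner ℝ e (y k)) ^ 2 := by
        rw [norm_sub_sq_real, inner_smul_right, norm_smul, hen, real_inner_comm, mul_one,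
          Real.norm_eq_abs, sq_abs]
        ring
      have h2 : ‖y k - (inner ℝ e (y k)) • e‖ ^ 2 ≤ ‖y k‖ ^ 2 := by
        rw [h1]; nlinarith [sq_nonneg (inner ℝ e (y k))]
      exact (sq_le_sq₀ (norm_nonneg _) (norm_nonneg _)).1 h2
    have hinner : Tendsto (fun k => (‖y k‖)⁻¹ * inner ℝ e (y k)) 𝒰 (𝓝 1) := by
      have h1 : Tendsto (fun k => inner ℝ e ((‖y k‖)⁻¹ • y k)) 𝒰 (𝓝 (inner ℝ e e)) :=
        tendsto_const_nhds.inner he2
      rw [real_inner_self_eq_norm_sq, hen, one_pow] at h1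
      refine h1.congr fun k => ?_
      rw [inner_smul_right]
    have hsmall : Tendsto (fun k => (‖y k‖)⁻¹ * (1 + ‖y k - (inner ℝ e (y k)) • e‖)) 𝒰 (𝓝 0) := by
      have h1 : Tendsto (fun k => ‖(‖y k‖)⁻¹ • y k - ((‖y k‖)⁻¹ * inner ℝ e (y k)) • e‖) 𝒰 (𝓝 0) := by
        have h2 := (he2.sub (hinner.smul (tendsto_const_nhds (x := e)))).norm
        rwa [one_smul, sub_self, norm_zero] at h2
      have h3 : Tendsto (fun k => (‖y k‖)⁻¹) 𝒰 (𝓝 0) := tendsto_inv_atTop_zero.comp hν
      have h4 := h3.add h1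
      rw [add_zero] at h4
      refine h4.congr fun k => ?_
      have h5 : (‖y k‖)⁻¹ • y k - ((‖y k‖)⁻¹ * inner ℝ e (y k)) • e
          = (‖y k‖)⁻¹ • (y k - (inner ℝ e (y k)) • e) := by
        rw [smul_sub, smul_smul]
      rw [h5, norm_smul, norm_inv, norm_norm]
      ring
    refine ih _ hlt (fun k => w k + (inner ℝ e (y k)) • e) (fun k => y k - (inner ℝ e (y k)) • e)
      ?_ ?_ ?_ ?_ ?_ ?_
    · intro k
      exact Submodule.add_mem _ (Submodule.mem_sup_left (hw k))
        (Submodule.smul_mem _ _ (Submodule.mem_sup_right (Submodule.mem_span_singleton_self e)))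
    · intro k
      rw [Submodule.mem_orthogonal]
      intro u hu
      obtain ⟨s, hs, a, rfl⟩ := hmem u hu
      have h1 : inner ℝ s (y k) = 0 := Submodule.inner_right_of_mem_orthogonal hs (hy k)
      have h2 : inner ℝ s e = 0 := Submodule.inner_right_of_mem_orthogonal hs heS
      rw [inner_add_left, inner_smul_left, inner_sub_right, inner_sub_right, inner_smul_right,
        inner_smul_right, h1, h2, real_inner_self_eq_norm_sq, hen]
      simp
    · intro k
      show x k = w k + (inner ℝ e (y k)) • e + (y k - (inner ℝ e (y k)) • e)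
      rw [hx k]; abel
    · intro u hu u' hu' v
      obtain ⟨s, hs, a, rfl⟩ := hmem u hu
      obtain ⟨s', hs', a', rfl⟩ := hmem u' hu'
      rw [F.Tadd, F.Tadd₂, F.Tadd₂, F.Tsmul, F.Tsmul, F.Tsmul₂, F.Tsmul₂, hT s hs s' hs',
        F.Tsymm₁ s e, (hes s hs).1, (hes s' hs').1, hee.1]
      simp
    · intro u hu u' hu'
      obtain ⟨s, hs, a, rfl⟩ := hmem u hu
      obtain ⟨s', hs', a', rfl⟩ := hmem u' hu'
      rw [F.Badd, F.Badd₂, F.Badd₂, F.Bsmul, F.Bsmul, F.Bsmul₂, F.Bsmul₂, hB s hs s' hs',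
        F.Bsymm s e, (hes s hs).2, (hes s' hs').2, hee.2]
      simp
    · intro j
      rcases hI j with h | h
      · by_cases hje : A j e = 0
        · left
          intro u hu
          obtain ⟨s, hs, a, rfl⟩ := hmem u hu
          rw [map_add, map_smul, h s hs, hje]; simp
        · right
          have hneg : A j e < 0 := lt_of_le_of_ne (hAe j h) hje
          intro M
          have h1 := hinner.eventually_const_lt (show (1 / 2 : ℝ) < 1 by norm_num)
          have h2 := (hsmall.const_mul M)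
          rw [mul_zero] at h2
          have h3 := h2.eventually_lt_const (show (0 : ℝ) < -A j e / 2 by linarith)
          filter_upwards [h1, h3, hpos] with k h4 h5 h6
          rw [map_add, map_smul, h _ (hw k), smul_eq_mul, zero_add]
          have h7 : ‖y k‖ / 2 < inner ℝ e (y k) := by
            have := mul_lt_mul_of_pos_left h4 h6
            rw [← mul_assoc, mul_inv_cancel₀ h6.ne', one_mul] at this
            linarith
          have h8 : M * (1 + ‖y k - (inner ℝ e (y k)) • e‖) < ‖y k‖ * (-A j e / 2) := by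
            have := mul_lt_mul_of_pos_left h5 h6
            have h9 : ‖y k‖ * (M * ((‖y k‖)⁻¹ * (1 + ‖y k - (inner ℝ e (y k)) • e‖)))
                = M * (1 + ‖y k - (inner ℝ e (y k)) • e‖) := by
              field_simp
            rwa [h9] at this
          nlinarith
      · right
        intro M
        filter_upwards [h (|M| + |A j e|)] with k hk
        rw [map_add, map_smul, smul_eq_mul]
        have h1 := hineq k
        have h2 : (inner ℝ e (y k)) * A j e ≤ ‖y k‖ * |A j e| := by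
          refine (le_abs_self _).trans ?_
          rw [abs_mul]
          exact mul_le_mul_of_nonneg_right h1 (abs_nonneg _)
        have h3 : M * (1 + ‖y k - (inner ℝ e (y k)) • e‖) ≤ |M| * (1 + ‖y k‖) := by
          have h4 : M * (1 + ‖y k - (inner ℝ e (y k)) • e‖)
              ≤ |M| * (1 + ‖y k - (inner ℝ e (y k)) • e‖) :=
            mul_le_mul_of_nonneg_right (le_abs_self _) (by positivity)
          refine h4.trans (mul_le_mul_of_nonneg_left ?_ (abs_nonneg _))
          linarith [hpyth k]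
        have h5 : 0 ≤ |A j e| := abs_nonneg _
        nlinarith

/-- **The core theorem.** -/
theorem core {α ι : Type*} [Finite ι] (𝒰 : Ultrafilter α) (A : ι → E →L[ℝ] ℝ) (F : CubicFn E)
    (x : α → E) (hA : ∀ j, Tendsto (fun k => A j (x k)) 𝒰 atBot)
    (hf : Tendsto (fun k => F.val (x k)) 𝒰 atBot) :
    ∃ D, (∀ j, A j D ≤ 0) ∧ (F.T D D D < 0 ∨ ((∀ v, F.T D D v = 0) ∧ F.B D D < 0) ∨
      ((∀ v, F.T D D v = 0) ∧ F.B D D = 0 ∧ ∃ k, F.slope D (x k) < 0)) := by
  by_contra hcon
  push Not at hcon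
  refine core_aux 𝒰 A F x hA hf (fun D hD => (hcon D hD).1)
    (fun D hD h => (hcon D hD).2.1 h) (fun D hD h1 h2 => (hcon D hD).2.2 h1 h2) ⊥
    (fun _ => 0) x (fun _ => Submodule.zero_mem _) (fun k => by simp) (fun k => by simp)
    ?_ ?_ ?_
  · intro s hs s' _ v
    rw [Submodule.mem_bot] at hs
    have h : s = (0 : ℝ) • s := by simp [hs]
    rw [h, F.Tsmul, zero_mul]
  · intro s hs s' _
    rw [Submodule.mem_bot] at hs
    have h : s = (0 : ℝ) • s := by simp [hs]
    rw [h, F.Bsmul, zero_mul]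
  · intro j
    left
    intro s hs
    rw [Submodule.mem_bot] at hs
    rw [hs, map_zero]

end Pool.Agent.R363.CubicCore
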